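import Pool.Agent.Lib.MP_c2d01e_co.FinA
import Pool.Agent.Lib.MP_c2d01e_co.FinB2
import Pool.Agent.Lib.MP_c2d01e_co.FinC
import Pool.Agent.Lib.MP_c2d01e_co.InfEq
import Pool.Agent.Lib.MP_c2d01e_co.Ex.CpB1
import Pool.Agent.Lib.MP_c2d01e_co.Ex.CpC
import Pool.Agent.Lib.MP_c2d01e_co.Ex.EmbDefs
import Pool.Agent.Lib.MP_c2d01e_co.Ex.EmbB3
import Pool.Agent.Lib.MP_c2d01e_co.Ex.EmbVCf
import Pool.Agent.Lib.MP_c2d01e_co.Ex.SetB
import Pool.Agent.Lib.MP_c2d01e_co.Ex.Ends26
import Pool.Agent.Lib.MP_c2d01e_co.Ex.TwoB26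
import Pool.Agent.Lib.MP_c2d01e_co.Ex.Two19
import Pool.Agent.Lib.MP_c2d01e_co.Ex.Two26
import Pool.Agent.Lib.MP_c2d01e_co.Ex.EmbV71

/-!
# Families (B) and (C) with equal lattices: existence and finiteness

`GamB s k t l`, `GamC t k u l` (file `EqDefs`) are the groups of the universal polytopes of the families (B), (C),
given by generators `ρ₀, …, ρ₅`, the Coxeter relations of type `{3,3,4,3,3}` resp. `{3,4,3,3,4}`, one relation for
the facets and one for the vertex-figures; `FacB s k`, `VerB t l`, `FacC t k`, `VerC u l` (file `Ex.EmbDefs`) are the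
groups of the facets and of the vertex-figures, presented by five generators.

The Coxeter groups `[3,3,3,4,3]`, `[3,3,4,3,3]`, `[3,4,3,3,4]` are extensions of one Coxeter group `V` (the star with
five leaves) by `S₅`, `S₄`, `S₃ × S₂`.  For the pairs of vectors below all the relations say that the five affine
subgroups of `V` (type `D₄`, omit one leaf) are divided by the same lattice, so the groups are the subgroups of index 5
resp. 10 of the group of family (A) with the vector `(n,n,0,0)` resp. `(2n,0,0,0)`.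

Finiteness.  In one direction there is a homomorphism to the group of family (A) (index at most 5, 10); in the other
one the group of family (A) acts on 5 resp. 10 copies of the group.  The groups of family (A) are finite exactly for
`(n,n,0,0)`, `n ≤ 3`, and `(n,0,0,0)`, `n ≤ 4` (hand-in `FamilyA`).

Existence.  The groups act on the lattice `V = H ⊕ ℤ ⊕ ℤ` modulo `2n` resp. modulo `n N` (`H` the Hurwitz quaternions,
`N` the vectors `(h, a, b)` with `h` in `(1 + i) H` and even `a`, `b`).  The
vectors fixed by all generators but one separate the finite standard subgroups.  The facet group and the vertex-figure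
group are extensions of a group of translations by a finite reflection group, and the translations of one of them that
fix the vector of the other modulo the level are trivial by the relations.  (For `n = 2` and the quotient modulo `2 N`
not all the vectors are separated: there stabilizers of sets of vectors are used for (B), and the criterion by the
initial and final segments of the diagram for (C).)
-/

set_option autoImplicit false

namespace Pool.Agent.Results.MP_c2d01e_co.EqualLattices

open Pool.Agent.Lib.MP_c2d01e_co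
open Pool.Agent.Lib.MP_c2d01e_co.EqDefs
open Pool.Agent.Lib.MP_c2d01e_co.EmbDefs (FacB VerB FacC VerC)

/-- The elements `g 0, …, g 5` are different from each other and from `1`, they have the intersection property, and
the groups `A` (facets) and `B` (vertex-figures) embed, `a i` going to `g i` and `b i` to `g (i + 1)`. -/
def Good {G A B : Type} [Group G] [Group A] [Group B] (g : Fin 6 → G) (a : Fin 5 → A)
    (b : Fin 5 → B) : Prop :=
  Function.Injective g ∧ (∀ i, g i ≠ 1) ∧
    (∀ I J : Set (Fin 6), Subgroup.closure (g '' I) ⊓ Subgroup.closure (g '' J) =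
      Subgroup.closure (g '' (I ∩ J))) ∧
    (∃ f : A →* G, Function.Injective f ∧ ∀ i : Fin 5, f (a i) = g i.castSucc) ∧
    (∃ f : B →* G, Function.Injective f ∧ ∀ i : Fin 5, f (b i) = g i.succ)

/-- Finiteness of the groups. -/
theorem fin_iff : ∀ n : ℕ, 2 ≤ n →
    ((Finite (GamB n 2 n 1) ↔ n ≤ 3) ∧ (Finite (GamB (2 * n) 1 n 2) ↔ n ≤ 2) ∧
      (Finite (GamC n 1 n 2) ↔ n ≤ 3) ∧ (Finite (GamC n 2 n 4) ↔ n ≤ 2)) := by
  intro n hn
  obtain ⟨i1, i2, i3, i4⟩ := InfEq.infEq
  refine ⟨⟨fun hf => ?_, fun h3 => ?_⟩, ⟨fun hf => ?_, fun h2 => ?_⟩, ⟨fun hf => ?_, fun h3 => ?_⟩,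
    ⟨fun hf => ?_, fun h2 => ?_⟩⟩
  · by_contra hcon
    exact (i1 n (by omega)).not_finite hf
  · have h : n = 2 ∨ n = 3 := by omega
    rcases h with rfl | rfl
    · exact FinB.finB1 2 FinA.finite_22
    · exact FinB.finB1 3 FinA.finite_32
  · by_contra hcon
    exact (i2 n (by omega)).not_finite hf
  · have h : n = 2 := by omega
    subst h
    exact FinB.finB2 2 FinA.finite_41
  · by_contra hcon
    exact (i3 n (by omega)).not_finite hf
  · have h : n = 2 ∨ n = 3 := by omega
    rcases h with rfl | rfl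
    · exact FinC.finC1 2 (by norm_num) FinA.finite_22
    · exact FinC.finC1 3 (by norm_num) FinA.finite_32
  · by_contra hcon
    exact (i4 n (by omega)).not_finite hf
  · have h : n = 2 := by omega
    subst h
    exact FinC.finC2 2 (by norm_num) FinA.finite_41

/-- The four one-parameter families with equal lattices: the groups are finite exactly for `n ≤ 3`, `n ≤ 2`, `n ≤ 3`
and `n ≤ 2`; they are string C-groups in which the groups of the facets and of
the vertex-figures embed. -/
theorem result : ∀ n : ℕ, 2 ≤ n →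
    ((Finite (GamB n 2 n 1) ↔ n ≤ 3) ∧ (Finite (GamB (2 * n) 1 n 2) ↔ n ≤ 2) ∧
      (Finite (GamC n 1 n 2) ↔ n ≤ 3) ∧ (Finite (GamC n 2 n 4) ↔ n ≤ 2)) ∧
    Good (PresentedGroup.of : Fin 6 → GamB (2 * n) 1 n 2)
      (PresentedGroup.of : Fin 5 → FacB (2 * n) 1) (PresentedGroup.of : Fin 5 → VerB n 2) ∧
    Good (PresentedGroup.of : Fin 6 → GamC n 2 n 4)
      (PresentedGroup.of : Fin 5 → FacC n 2) (PresentedGroup.of : Fin 5 → VerC n 4) ∧
    Good (PresentedGroup.of : Fin 6 → GamB n 2 n 1)
      (PresentedGroup.of : Fin 5 → FacB n 2) (PresentedGroup.of : Fin 5 → VerB n 1) ∧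
    Good (PresentedGroup.of : Fin 6 → GamC n 1 n 2)
      (PresentedGroup.of : Fin 5 → FacC n 1) (PresentedGroup.of : Fin 5 → VerC n 2) := by
  intro n hn
  refine ⟨fin_iff n hn, ?_, ?_, ?_, ?_⟩
  · obtain ⟨a1, a2, a3⟩ := Ex.scB1 n hn
    exact ⟨a1, a2, a3, Ex.EmbB3.fB_P n hn, Ex.EmbB3.vB_P n hn⟩
  · obtain ⟨a1, a2, a3⟩ := CpC8.scC2 n hn
    exact ⟨a1, a2, a3, EmbV71.fC_P n hn, EmbVCf.embP n hn⟩
  · obtain ⟨a1, a2, a3⟩ := Ex.SetB.scB2 n hn
    exact ⟨a1, a2, a3, TwoB26.fBall n hn, TwoB26.vBall n hn⟩
  · obtain ⟨b1, b2, b3⟩ := Ends26.scAll n hn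
    exact ⟨b1, b2, b3, Ex.Two19.fC_Qall n hn, Two26.embQall n hn⟩

end Pool.Agent.Results.MP_c2d01e_co.EqualLattices
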