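import Pool.Agent.Lib.MP_c2d01e_co.Rel
import Pool.Agent.Lib.MP_c2d01e_co.Six
import Pool.Agent.Lib.MP_c2d01e_co.CGroup
import Pool.Agent.Lib.MP_c2d01e_co.CTwo
import Pool.Agent.Lib.MP_c2d01e_co.Four.Small

/-!
# Family (A) of locally toroidal regular 6-polytopes: the complete list of finite groups

Let `Gam s k` be the group of the universal polytope `{{3,3,3,4},{3,3,4,3}_(s^k,0^(4-k))}`, given by
generators `ρ₀, …, ρ₅`, the Coxeter relations of type `{3,3,3,4,3}` and one more relation.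
`result` : for `s ≥ 2` and `k = 1, 2` the group `Gam s k` is a string C-group (its generators are
pairwise distinct, different from `1`, and it has the intersection property), and it is finite
exactly for the vectors `(2,0,0,0)`, `(2,2,0,0)`, `(3,0,0,0)`, `(3,3,0,0)` and `(4,0,0,0)`.  The
vectors `(3,3,0,0)` and `(4,0,0,0)` refute the conjecture of McMullen and Schulte.

Outline, infinite cases.  The Coxeter group acts on the lattice `V = H ⊕ ℤ ⊕ ℤ`, `H` the Hurwitz
quaternions, with the quadratic form `N(x) + a b`; the additional relation kills the translations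
`E(y)` of the cusp group `⟨ρ₁, …, ρ₅⟩` with `y` in the ideal generated by `s` or `s (1 + i)`.  On the
functions on `V` that are periodic modulo a suitable sublattice we construct an affine action:
`ρ₁, …, ρ₅` act linearly and `ρ₀` acts by its linear action followed by adding an explicit function
`D`, a sort of modular symbol counting walls between two adjacent cusps.  If the group were finite
there would be a function `F` invariant under `ρ₁, …, ρ₅` with `F - F ∘ ρ₀ = |Γ| D`, and two values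
give a contradiction.  For `(6,0,0,0)` a subgroup of index three maps onto the semidirect product of
`W(D₅)` with an infinite Coxeter group (the Clebsch graph with labels 3).

Outline, finite cases.  A class of involutions is shown to be finite by a double coset enumeration
(centralizer of an involution, vertex-figure group), whose certificate is checked by the kernel;
by Dietzmann's lemma it generates a finite normal subgroup.  For `(3,3,0,0)` this is the class of
`ρ₅` (75 orbits of `⟨ρ₁, …, ρ₅⟩`, 3047 facts).  For `(4,0,0,0)` one works in the subgroup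
`⟨ρ₀, ρ₁ρ₂ρ₃ρ₄ρ₃ρ₂ρ₁, ρ₅, ρ₄, ρ₃, ρ₂⟩` of index 10, which is a quotient of the group of family (C) with
the vectors `(2,2,0,0)`, `(2,2,2,2)`; the class of `ρ₀` is covered by 1800 orbits of a group of order
`64 · 1152` (45209 facts).
-/

namespace Pool.Agent.Results.MP_c2d01e_co.FamilyA

/-- The Coxeter matrix of the string diagram `{3,3,3,4,3}` on the nodes `0, …, 5`. -/
def cox (i j : Fin 6) : ℕ :=
  if i = j then 1
  else if (i = 3 ∧ j = 4) ∨ (i = 4 ∧ j = 3) then 4
  else if (i : ℕ) + 1 = j ∨ (j : ℕ) + 1 = i then 3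
  else 2

/-- The generator `ρᵢ` of the free group. -/
def gen (i : Fin 6) : FreeGroup (Fin 6) := FreeGroup.of i

/-- `σ = ρ₂ρ₃ρ₄ρ₃ρ₂`. -/
def sigma : FreeGroup (Fin 6) := gen 2 * gen 3 * gen 4 * gen 3 * gen 2

/-- `τ = ρ₅ρ₄ρ₃ρ₄ρ₅`. -/
def tau : FreeGroup (Fin 6) := gen 5 * gen 4 * gen 3 * gen 4 * gen 5

/-- The additional relator: `(ρ₁στσ)^s` if `k = 1` and `(ρ₁στ)^(2s)` if `k = 2`. -/
def extra (s k : ℕ) : FreeGroup (Fin 6) :=
  if k = 1 then (gen 1 * sigma * tau * sigma) ^ s else (gen 1 * sigma * tau) ^ (2 * s)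

/-- The relators: `(ρᵢρⱼ)^(m i j)` with `m = cox`, and the additional relator. -/
def rels (s k : ℕ) : Set (FreeGroup (Fin 6)) :=
  {r | ∃ i j, r = (gen i * gen j) ^ cox i j} ∪ {extra s k}

/-- The group `Γ` of family (A) with parameter vector `(s^k, 0^(4-k))`, `k = 1, 2`. -/
abbrev Gam (s k : ℕ) : Type := PresentedGroup (rels s k)

/-- The generator `ρᵢ` of `Γ`. -/
def rho (s k : ℕ) (i : Fin 6) : Gam s k := PresentedGroup.of i

open Pool.Agent.Lib.MP_c2d01e_co

theorem lift_gen (L : Lvl) (i : Fin 6) : FreeGroup.lift L.T0 (gen i) = L.T0 i :=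
  FreeGroup.lift_apply_of

theorem lift_cox (L : Lvl) (i j : Fin 6) :
    FreeGroup.lift L.T0 ((gen i * gen j) ^ cox i j) = 1 := by
  rw [map_pow, map_mul, lift_gen, lift_gen]
  exact L.rel_cox i j

theorem lift_sigma (L : Lvl) : FreeGroup.lift L.T0 sigma = L.Sg := by
  simp only [sigma, map_mul, lift_gen, Lvl.Sg]

theorem lift_tau (L : Lvl) : FreeGroup.lift L.T0 tau = L.Ta := by
  simp only [tau, map_mul, lift_gen, Lvl.Ta]

theorem lift_rels (L : Lvl) (s k : ℕ) (h : FreeGroup.lift L.T0 (extra s k) = 1) :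
    ∀ r ∈ rels s k, FreeGroup.lift L.T0 r = 1 := by
  rintro r (⟨i, j, rfl⟩ | hr)
  · exact lift_cox L i j
  · rw [Set.mem_singleton_iff.1 hr]
    exact h

theorem lift_extra_one (L : Lvl) (s : ℕ) (h1 : (-2 * (s : ℤ), (s : ℤ), (s : ℤ), (s : ℤ)) ∈ L.H)
    (h2 : L.n ∣ s) : FreeGroup.lift L.T0 (extra s 1) = 1 := by
  rw [extra, if_pos rfl, map_pow, map_mul, map_mul, map_mul, lift_gen, lift_sigma, lift_tau]
  exact L.rel_one s h1 h2

theorem lift_extra_two (L : Lvl) (s : ℕ) (h1 : (-2 * (s : ℤ), (0 : ℤ), (s : ℤ), (s : ℤ)) ∈ L.H)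
    (h2 : L.n ∣ 2 * s) : FreeGroup.lift L.T0 (extra s 2) = 1 := by
  rw [extra, if_neg (by norm_num), map_pow, map_mul, map_mul, lift_gen, lift_sigma, lift_tau]
  exact L.rel_two s h1 h2

/-- Parameter vector `(6, 0, 0, 0)`: the group is infinite. -/
theorem infinite_six : Infinite (Gam 6 1) := by
  refine Six.infinite_of_triv _ ?_
  rintro r (⟨i, j, rfl⟩ | hr)
  · refine ⟨(List.replicate (cox i j) [i, j]).flatten, ?_, ?_⟩
    · rw [Six.w2g_pow]
      simp [Six.w2g, gen]
    · revert i j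
      decide +kernel
  · rw [Set.mem_singleton_iff.1 hr]
    refine ⟨(List.replicate 6 [1, 2, 3, 4, 3, 2, 5, 4, 3, 4, 5, 2, 3, 4, 3, 2]).flatten, ?_, ?_⟩
    · rw [Six.w2g_pow, extra, if_pos rfl]
      congr 1
    · decide +kernel

/-- Parameter vector `(s, 0, 0, 0)`: the group is infinite for `s ≥ 5`. -/
theorem infinite_one (s : ℕ) (hs : 5 ≤ s) : Infinite (Gam s 1) := by
  by_cases h6 : s = 6
  · subst h6
    exact infinite_six
  have h4 : s % 2 = 1 ∨ s % 4 = 2 ∨ s % 4 = 0 := by omega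
  rcases h4 with h | h | h
  · refine infinite_odd s (by omega) (by omega) _ (lift_rels _ s 1 (lift_extra_one _ s ?_ ?_))
    · exact ⟨dvd_mul_left _ _, dvd_rfl, dvd_rfl, dvd_rfl⟩
    · exact dvd_rfl
  · obtain ⟨t, rfl⟩ : ∃ t, s = 2 * t := ⟨s / 2, by omega⟩
    refine infinite_odd t (by omega) (by omega) _
      (lift_rels _ _ 1 (lift_extra_one _ _ ?_ ?_))
    · push_cast
      exact ⟨⟨-4, by ring⟩, dvd_mul_left _ _, dvd_mul_left _ _, dvd_mul_left _ _⟩
    · push_cast
      exact dvd_mul_left _ _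
  · obtain ⟨t, rfl⟩ : ∃ t, s = 2 * t := ⟨s / 2, by omega⟩
    refine infinite_even t (by omega) (by omega) _
      (lift_rels _ _ 1 (lift_extra_one _ _ ?_ ?_))
    · push_cast
      exact ⟨⟨-2, by ring⟩, dvd_mul_left _ _, dvd_mul_left _ _, dvd_mul_left _ _, ⟨3, by ring⟩⟩
    · push_cast
      exact dvd_rfl

/-- Parameter vector `(s, s, 0, 0)`: the group is infinite for `s ≥ 4`. -/
theorem infinite_two (s : ℕ) (hs : 4 ≤ s) : Infinite (Gam s 2) := by
  have h4 : s % 2 = 1 ∨ s % 2 = 0 := by omega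
  rcases h4 with h | h
  · refine infinite_odd s (by omega) (by omega) _ (lift_rels _ s 2 (lift_extra_two _ s ?_ ?_))
    · exact ⟨dvd_mul_left _ _, dvd_zero _, dvd_rfl, dvd_rfl⟩
    · exact dvd_mul_left _ _
  · refine infinite_even s (by omega) (by omega) _ (lift_rels _ s 2 (lift_extra_two _ s ?_ ?_))
    · exact ⟨⟨-1, by ring⟩, dvd_zero _, dvd_rfl, dvd_rfl, ⟨1, by ring⟩⟩
    · exact dvd_rfl

/-! ### The finite cases -/

section fin

variable (s k : ℕ)

/-- the generators, indexed by natural numbers -/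
def rN (i : ℕ) : Gam s k := if h : i < 6 then rho s k ⟨i, h⟩ else 1

theorem rho_cox (i j : Fin 6) : (rho s k i * rho s k j) ^ cox i j = 1 := by
  have h : PresentedGroup.mk (rels s k) ((gen i * gen j) ^ cox i j) = 1 :=
    PresentedGroup.one_of_mem (Or.inl ⟨i, j, rfl⟩)
  rw [map_pow, map_mul] at h
  exact h

theorem rN_cox (i j : ℕ) (hi : i < 6) (hj : j < 6) :
    (rN s k i * rN s k j) ^ cox ⟨i, hi⟩ ⟨j, hj⟩ = 1 := by
  rw [rN, rN, dif_pos hi, dif_pos hj]
  exact rho_cox _ _ _ _

theorem rel0 : Four.Rel0 (rN s k) := by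
  have hcox : ∀ i j, 1 ≤ i → i ≤ 5 → 1 ≤ j → j ≤ 5 → i ≠ j →
      (rN s k i * rN s k j) ^ Dce.cx i j = 1 := by
    intro i j hi hi' hj hj' hij
    have h := rN_cox s k i j (by omega) (by omega)
    have e : Dce.cx i j = cox ⟨i, by omega⟩ ⟨j, by omega⟩ := by
      interval_cases i <;> interval_cases j <;> first | rfl | omega
    rw [e]
    exact h
  have hsq : ∀ i, i ≤ 5 → rN s k i * rN s k i = 1 := by
    intro i hi
    have h := rN_cox s k i i (by omega) (by omega)
    rw [cox, if_pos rfl, pow_one] at h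
    exact h
  refine ⟨⟨fun i _ h => hsq i h, hcox⟩, hsq 0 (by norm_num), ?_, ?_⟩
  · intro i h2 h5
    have h := rN_cox s k 0 i (by norm_num) (by omega)
    have e : cox ⟨0, by norm_num⟩ ⟨i, by omega⟩ = 2 := by interval_cases i <;> rfl
    rw [e, pow_two] at h
    have a1 := inv_eq_of_mul_eq_one_left (hsq 0 (by norm_num))
    have a2 := inv_eq_of_mul_eq_one_left (hsq i h5)
    calc rN s k 0 * rN s k i = rN s k 0 * rN s k i * (rN s k 0 * rN s k i *
          (rN s k 0 * rN s k i))⁻¹ := by rw [h]; simp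
      _ = (rN s k i)⁻¹ * (rN s k 0)⁻¹ := by group
      _ = rN s k i * rN s k 0 := by rw [a1, a2]
  · exact rN_cox s k 0 1 (by norm_num) (by norm_num)

theorem ext_one : Dce.lp (rN s 1) Four.wA ^ s = 1 := by
  have h : PresentedGroup.mk (rels s 1) (extra s 1) = 1 :=
    PresentedGroup.one_of_mem (Or.inr rfl)
  rw [extra, if_pos rfl, map_pow] at h
  rw [← h]
  congr 1

theorem ext_two : Dce.lp (rN s 2) Four.wB ^ (2 * s) = 1 := by
  have h : PresentedGroup.mk (rels s 2) (extra s 2) = 1 :=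
    PresentedGroup.one_of_mem (Or.inr rfl)
  rw [extra, if_neg (by norm_num), map_pow] at h
  rw [← h]
  congr 1

theorem closure_rN : Subgroup.closure {g | ∃ i, i ≤ 5 ∧ g = rN s k i} = ⊤ := by
  rw [eq_top_iff, ← PresentedGroup.closure_range_of (rels s k)]
  refine Subgroup.closure_mono ?_
  rintro _ ⟨i, rfl⟩
  exact ⟨i, by omega, by rw [rN, dif_pos i.2]; rfl⟩

end fin

theorem finite_21 : Finite (Gam 2 1) :=
  Four.finite_of_rel41 (Four.rel41_of_two (rel0 2 1) (ext_one 2)) (closure_rN 2 1)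

theorem finite_22 : Finite (Gam 2 2) :=
  Four.finite_of_rel41 (Four.rel41_of_twotwo (rel0 2 2) (ext_two 2)) (closure_rN 2 2)

theorem finite_31 : Finite (Gam 3 1) :=
  Dce.finite_of_rel33 (Four.rel33_of_three (rel0 3 1) (ext_one 3)) (closure_rN 3 1)

theorem finite_32 : Finite (Gam 3 2) :=
  Dce.finite_of_rel33 (Four.rel33_of_threethree (rel0 3 2) (ext_two 3)) (closure_rN 3 2)

theorem finite_41 : Finite (Gam 4 1) :=
  Four.finite_of_rel41 (Four.rel41_of_four (rel0 4 1) (ext_one 4)) (closure_rN 4 1)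

/-- **Family (A).** For `s ≥ 2` and `k = 1, 2`, the group `Γ` with vector `(s^k, 0^(4-k))` is a
string C-group, and it is finite if and only if the vector is one of `(2,0,0,0)`, `(3,0,0,0)`,
`(4,0,0,0)`, `(2,2,0,0)`, `(3,3,0,0)`. -/
theorem result : ∀ s k : ℕ, 2 ≤ s → k = 1 ∨ k = 2 →
    (Function.Injective (rho s k) ∧ (∀ i, rho s k i ≠ 1) ∧
      ∀ I J : Set (Fin 6), Subgroup.closure (rho s k '' I) ⊓ Subgroup.closure (rho s k '' J) =
        Subgroup.closure (rho s k '' (I ∩ J))) ∧
    (Finite (Gam s k) ↔ (k = 1 ∧ s ≤ 4) ∨ (k = 2 ∧ s ≤ 3)) := by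
  intro s k hs hk
  refine ⟨?_, ?_, ?_⟩
  · rcases Nat.eq_or_lt_of_le hs with rfl | h3
    · exact ⟨CGroup.gam2_injective k hk, CGroup.gam2_ne_one k hk, CGroup.gam2_inter k hk⟩
    · exact ⟨CGroup.gam_injective s k h3 hk, CGroup.gam_ne_one s k h3 hk,
        CGroup.gam_inter s k h3 hk⟩
  · intro hf
    rcases hk with rfl | rfl
    · left
      refine ⟨rfl, ?_⟩
      by_contra h
      exact (infinite_one s (by omega)).not_finite hf
    · right
      refine ⟨rfl, ?_⟩
      by_contra h
      exact (infinite_two s (by omega)).not_finite hf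
  · rintro (⟨rfl, h4⟩ | ⟨rfl, h3⟩)
    · have h : s = 2 ∨ s = 3 ∨ s = 4 := by omega
      rcases h with rfl | rfl | rfl
      · exact finite_21
      · exact finite_31
      · exact finite_41
    · have h : s = 2 ∨ s = 3 := by omega
      rcases h with rfl | rfl
      · exact finite_22
      · exact finite_32

end Pool.Agent.Results.MP_c2d01e_co.FamilyA
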