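import Pool.Agent.Lib.MP_c2d01e_co.GcdA
import Pool.Agent.Lib.MP_c2d01e_co.GcdY

/-!
# Families (B) and (C) of locally toroidal regular 6-polytopes: infinite groups from family (A)

`GamB s k t l` and `GamC t k u l` are the groups of the universal polytopes of the families (B) and (C), given by
generators `ρ₀, …, ρ₅`, the Coxeter relations of type `{3,3,4,3,3}` resp. `{3,4,3,3,4}`, one relation for the facets
and one for the vertex-figures.

Outline of the proof.  Let `a, …, f` be the generators of `[3,3,3,4,3]`, `σ = c d e d c`, `τ = f e d e f`,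
`L = b σ b` and `L₁ = a L a`.  The elements `b, c, d, e, f, L₁` generate a subgroup of index 5 and satisfy the
Coxeter relations of `[3,3,4,3,3]`; the elements `c, d, e, f, L, a` generate a subgroup of index 10 and satisfy those
of `[3,4,3,3,4]`.  With `T = b σ τ σ`, `X = (b σ τ)² = T (σ T σ)` (and `T` commutes with `σ T σ`) the relations of the
families (B) and (C) with parameters divisible by `n` follow from `T ^ n = 1`, that is, they hold in the group of
family (A) with the vector `(n,0,0,0)`, and most of them already from `X ^ n = 1`, the relation of `(n,n,0,0)`.  These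
groups are infinite for `n ≥ 5` resp. `n ≥ 4` (hand-in `FamilyA`).
-/

set_option autoImplicit false

namespace Pool.Agent.Results.MP_c2d01e_co.GcdBC

/-- The generator `ρᵢ` of the free group. -/
def gen (i : Fin 6) : FreeGroup (Fin 6) := FreeGroup.of i

/-- The Coxeter matrix of the string diagram `{3,3,4,3,3}` on the nodes `0, …, 5`. -/
def coxB (i j : Fin 6) : ℕ :=
  if i = j then 1
  else if (i = 2 ∧ j = 3) ∨ (i = 3 ∧ j = 2) then 4
  else if (i : ℕ) + 1 = j ∨ (j : ℕ) + 1 = i then 3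
  else 2

/-- `ρ₁ρ₂ρ₃ρ₂ρ₁`. -/
def sB : FreeGroup (Fin 6) := gen 1 * gen 2 * gen 3 * gen 2 * gen 1

/-- `ρ₄ρ₃ρ₂ρ₃ρ₄`. -/
def tB : FreeGroup (Fin 6) := gen 4 * gen 3 * gen 2 * gen 3 * gen 4

/-- The relator of the facets `{3,3,4,3}_(s^k,0^(4-k))`. -/
def facetB (s k : ℕ) : FreeGroup (Fin 6) :=
  if k = 1 then (gen 0 * sB * tB * sB) ^ s else (gen 0 * sB * tB) ^ (2 * s)

/-- The relator of the vertex-figures `{3,4,3,3}_(t^l,0^(4-l))`. -/
def vertB (t l : ℕ) : FreeGroup (Fin 6) :=
  if l = 1 then (gen 5 * tB * sB * tB) ^ t else (gen 5 * tB * sB) ^ (2 * t)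

/-- The relators of family (B). -/
def relsB (s k t l : ℕ) : Set (FreeGroup (Fin 6)) :=
  {r | ∃ i j, r = (gen i * gen j) ^ coxB i j} ∪ {facetB s k, vertB t l}

/-- The group of family (B) with parameter vectors `(s^k,0^(4-k))` and `(t^l,0^(4-l))`. -/
abbrev GamB (s k t l : ℕ) : Type := PresentedGroup (relsB s k t l)

/-- The Coxeter matrix of the string diagram `{3,4,3,3,4}` on the nodes `0, …, 5`. -/
def coxC (i j : Fin 6) : ℕ :=
  if i = j then 1
  else if (i = 1 ∧ j = 2) ∨ (i = 2 ∧ j = 1) ∨ (i = 4 ∧ j = 5) ∨ (i = 5 ∧ j = 4) then 4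
  else if (i : ℕ) + 1 = j ∨ (j : ℕ) + 1 = i then 3
  else 2

/-- `ρ₃ρ₂ρ₁ρ₂ρ₃`. -/
def sC : FreeGroup (Fin 6) := gen 3 * gen 2 * gen 1 * gen 2 * gen 3

/-- `ρ₀ρ₁ρ₂ρ₁ρ₀`. -/
def tC : FreeGroup (Fin 6) := gen 0 * gen 1 * gen 2 * gen 1 * gen 0

/-- The relator of the facets `{3,4,3,3}_(t^k,0^(4-k))`. -/
def facetC (t k : ℕ) : FreeGroup (Fin 6) :=
  if k = 1 then (gen 4 * sC * tC * sC) ^ t else (gen 4 * sC * tC) ^ (2 * t)

/-- The relator of the vertex-figures `{4,3,3,4}_(u^l,0^(4-l))`. -/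
def vertC (u l : ℕ) : FreeGroup (Fin 6) :=
  if l = 1 then (gen 1 * gen 2 * gen 3 * gen 4 * gen 5 * gen 4 * gen 3 * gen 2) ^ u
  else if l = 2 then (gen 1 * gen 2 * gen 3 * gen 4 * gen 5 * gen 4 * gen 3) ^ (2 * u)
  else (gen 1 * gen 2 * gen 3 * gen 4 * gen 5) ^ (4 * u)

/-- The relators of family (C). -/
def relsC (t k u l : ℕ) : Set (FreeGroup (Fin 6)) :=
  {r | ∃ i j, r = (gen i * gen j) ^ coxC i j} ∪ {facetC t k, vertC u l}

/-- The group of family (C) with parameter vectors `(t^k,0^(4-k))` and `(u^l,0^(4-l))`. -/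
abbrev GamC (t k u l : ℕ) : Type := PresentedGroup (relsC t k u l)

open Pool.Agent.Lib.MP_c2d01e_co.GcdW
open Pool.Agent.Lib.MP_c2d01e_co.GcdA (Gam rho rels extra sigma tau cox infinite_one infinite_two)

/-! ### The groups of family (A) -/

theorem rc (n k : ℕ) (i j : Fin 6) (m : ℕ) (hm : cox i j = m) : (rho n k i * rho n k j) ^ m = 1 := by
  subst hm
  have h : PresentedGroup.mk (rels n k) ((Pool.Agent.Lib.MP_c2d01e_co.GcdA.gen i *
      Pool.Agent.Lib.MP_c2d01e_co.GcdA.gen j) ^ cox i j) = 1 :=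
    PresentedGroup.one_of_mem (Or.inl ⟨i, j, rfl⟩)
  rw [map_pow, map_mul] at h
  exact h

theorem rsq (n k : ℕ) (i : Fin 6) : rho n k i * rho n k i = 1 := by
  have h := rc n k i i 1 (by rw [cox, if_pos rfl])
  rwa [pow_one] at h

theorem rel (n k : ℕ) :
    Rel (rho n k 0) (rho n k 1) (rho n k 2) (rho n k 3) (rho n k 4) (rho n k 5) where
  aa := rsq n k 0
  bb := rsq n k 1
  cc := rsq n k 2
  dd := rsq n k 3
  ee := rsq n k 4
  ff := rsq n k 5
  aba := q3 (rsq n k 0) (rsq n k 1) (rc n k 0 1 3 (by decide))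
  bcb := q3 (rsq n k 1) (rsq n k 2) (rc n k 1 2 3 (by decide))
  cdc := q3 (rsq n k 2) (rsq n k 3) (rc n k 2 3 3 (by decide))
  dede := q4 (rsq n k 3) (rsq n k 4) (rc n k 3 4 4 (by decide))
  efe := q3 (rsq n k 4) (rsq n k 5) (rc n k 4 5 3 (by decide))
  ac := q2 (rsq n k 0) (rsq n k 2) (rc n k 0 2 2 (by decide))
  ad := q2 (rsq n k 0) (rsq n k 3) (rc n k 0 3 2 (by decide))
  ae := q2 (rsq n k 0) (rsq n k 4) (rc n k 0 4 2 (by decide))
  af := q2 (rsq n k 0) (rsq n k 5) (rc n k 0 5 2 (by decide))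
  bd := q2 (rsq n k 1) (rsq n k 3) (rc n k 1 3 2 (by decide))
  be := q2 (rsq n k 1) (rsq n k 4) (rc n k 1 4 2 (by decide))
  bf := q2 (rsq n k 1) (rsq n k 5) (rc n k 1 5 2 (by decide))
  ce := q2 (rsq n k 2) (rsq n k 4) (rc n k 2 4 2 (by decide))
  cf := q2 (rsq n k 2) (rsq n k 5) (rc n k 2 5 2 (by decide))
  df := q2 (rsq n k 3) (rsq n k 5) (rc n k 3 5 2 (by decide))

/-- `T ^ n = 1` for the vector `(n,0,0,0)`. -/
theorem T_one (n : ℕ) : (tT (rho n 1 1) (sg (rho n 1 2) (rho n 1 3) (rho n 1 4))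
    (ta (rho n 1 3) (rho n 1 4) (rho n 1 5))) ^ n = 1 := by
  have h : PresentedGroup.mk (rels n 1) (extra n 1) = 1 := PresentedGroup.one_of_mem (Or.inr rfl)
  rw [extra, if_pos rfl, map_pow] at h
  rw [← h]
  congr 1

/-- `X ^ n = 1` for the vector `(n,n,0,0)`. -/
theorem X_one (n : ℕ) : ((rho n 2 1 * sg (rho n 2 2) (rho n 2 3) (rho n 2 4) *
    ta (rho n 2 3) (rho n 2 4) (rho n 2 5)) * (rho n 2 1 * sg (rho n 2 2) (rho n 2 3) (rho n 2 4) *
    ta (rho n 2 3) (rho n 2 4) (rho n 2 5))) ^ n = 1 := by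
  have h : PresentedGroup.mk (rels n 2) (extra n 2) = 1 := PresentedGroup.one_of_mem (Or.inr rfl)
  rw [extra, if_neg (by norm_num), map_pow, pow_mul, pow_two] at h
  rw [← h]
  congr 1

/-- A finite subgroup cannot contain the six elements. -/
theorem absurd_of_fin {n k : ℕ} (hinf : Infinite (Gam n k)) (H : Subgroup (Gam n k)) (hH : Finite H)
    (hc : rho n k 2 ∈ H) (hd : rho n k 3 ∈ H) (he : rho n k 4 ∈ H) (hf : rho n k 5 ∈ H)
    (hl : rho n k 1 * sg (rho n k 2) (rho n k 3) (rho n k 4) * rho n k 1 ∈ H)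
    (hm : rho n k 0 * (rho n k 1 * sg (rho n k 2) (rho n k 3) (rho n k 4) * rho n k 1) *
      rho n k 0 ∈ H) : False := by
  have h1 : (Subgroup.closure {rho n k 2, rho n k 3, rho n k 4, rho n k 5,
      rho n k 1 * sg (rho n k 2) (rho n k 3) (rho n k 4) * rho n k 1,
      rho n k 0 * (rho n k 1 * sg (rho n k 2) (rho n k 3) (rho n k 4) * rho n k 1) *
      rho n k 0} : Set (Gam n k)).Finite := by
    have h2 : Subgroup.closure {rho n k 2, rho n k 3, rho n k 4, rho n k 5,
      rho n k 1 * sg (rho n k 2) (rho n k 3) (rho n k 4) * rho n k 1,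
      rho n k 0 * (rho n k 1 * sg (rho n k 2) (rho n k 3) (rho n k 4) * rho n k 1) *
      rho n k 0} ≤ H := by
      rw [Subgroup.closure_le]
      rintro x (rfl | rfl | rfl | rfl | rfl | rfl)
      exacts [hc, hd, he, hf, hl, hm]
    exact (Set.toFinite (H : Set (Gam n k))).subset h2
  have h3 := fin5 (rel n k) (fin4 (rel n k) h1)
  have h4 : Subgroup.closure {rho n k 0, rho n k 1, rho n k 2, rho n k 3, rho n k 4, rho n k 5} =
      (⊤ : Subgroup (Gam n k)) := by
    rw [eq_top_iff, ← PresentedGroup.closure_range_of (rels n k), Subgroup.closure_le]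
    rintro x ⟨i, rfl⟩
    refine Subgroup.subset_closure ?_
    fin_cases i <;> simp [rho]
  rw [h4] at h3
  exact Set.infinite_univ h3

/-! ### Family (B) -/

section B

variable {G : Type} [Group G]

/-- The images of the generators in family (B). -/
def rB (a b c d e f : G) : Fin 6 → G := ![b, c, d, e, f, a * (b * sg c d e * b) * a]

theorem rB0 (a b c d e f : G) : rB a b c d e f 0 = b := rfl

theorem rB1 (a b c d e f : G) : rB a b c d e f 1 = c := rfl

theorem rB2 (a b c d e f : G) : rB a b c d e f 2 = d := rfl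

theorem rB3 (a b c d e f : G) : rB a b c d e f 3 = e := rfl

theorem rB4 (a b c d e f : G) : rB a b c d e f 4 = f := rfl

theorem rB5 (a b c d e f : G) : rB a b c d e f 5 = a * (b * sg c d e * b) * a := rfl

theorem coxB_symm (i j : Fin 6) : coxB i j = coxB j i := by
  revert i j
  decide

theorem coxB_rev (i j : Fin 6) : coxB i j = coxB (Fin.rev i) (Fin.rev j) := by
  revert i j
  decide

theorem rB_cox {a b c d e f : G} (h : Rel a b c d e f) (i j : Fin 6) :
    (rB a b c d e f i * rB a b c d e f j) ^ coxB i j = 1 := by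
  refine coxall coxB_symm ?_ i j
  intro i j hij
  fin_cases i <;> fin_cases j
  · exact p1 h.bb
  · exact p3 h.bb h.cc h.bcb
  · exact p2 h.bb h.dd h.bd
  · exact p2 h.bb h.ee h.be
  · exact p2 h.bb h.ff h.bf
  · exact p2 h.bb (L1L1 h) (bL1 h)
  · exact absurd hij (by decide)
  · exact p1 h.cc
  · exact p3 h.cc h.dd h.cdc
  · exact p2 h.cc h.ee h.ce
  · exact p2 h.cc h.ff h.cf
  · exact p2 h.cc (L1L1 h) (cL1 h)
  · exact absurd hij (by decide)
  · exact absurd hij (by decide)
  · exact p1 h.dd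
  · exact p4 h.dd h.ee h.dede
  · exact p2 h.dd h.ff h.df
  · exact p2 h.dd (L1L1 h) (dL1 h)
  · exact absurd hij (by decide)
  · exact absurd hij (by decide)
  · exact absurd hij (by decide)
  · exact p1 h.ee
  · exact p3 h.ee h.ff h.efe
  · exact p2 h.ee (L1L1 h) (eL1 h)
  · exact absurd hij (by decide)
  · exact absurd hij (by decide)
  · exact absurd hij (by decide)
  · exact absurd hij (by decide)
  · exact p1 h.ff
  · exact p3 h.ff (L1L1 h) (fL1 h)
  · exact absurd hij (by decide)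
  · exact absurd hij (by decide)
  · exact absurd hij (by decide)
  · exact absurd hij (by decide)
  · exact absurd hij (by decide)
  · exact p1 (L1L1 h)

theorem facB {a b c d e f : G} (s k : ℕ)
    (hT : k = 1 → (tT b (sg c d e) (ta d e f)) ^ s = 1)
    (hX : ((b * sg c d e * ta d e f) * (b * sg c d e * ta d e f)) ^ s = 1) :
    FreeGroup.lift (rB a b c d e f) (facetB s k) = 1 := by
  unfold facetB
  split_ifs with hk
  · rw [map_pow, ← hT hk]
    congr 1
    simp only [sB, tB, gen, tT, sg, ta, map_mul, FreeGroup.lift_apply_of, rB0, rB1, rB2, rB3, rB4,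
      mul_assoc]
  · rw [map_pow, ← hX, pow_mul, pow_two]
    congr 1
    simp only [sB, tB, gen, sg, ta, map_mul, FreeGroup.lift_apply_of, rB0, rB1, rB2, rB3, rB4,
      mul_assoc]

theorem verB {a b c d e f : G} (h : Rel a b c d e f) (t l : ℕ)
    (hX : ((b * sg c d e * ta d e f) * (b * sg c d e * ta d e f)) ^ t = 1) :
    FreeGroup.lift (rB a b c d e f) (vertB t l) = 1 := by
  unfold vertB
  split_ifs with hk
  · rw [map_pow, ← vB1 h t hX]
    congr 1
    simp only [sB, tB, gen, sg, ta, map_mul, FreeGroup.lift_apply_of, rB1, rB2, rB3, rB4, rB5,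
      mul_assoc]
  · rw [map_pow, ← vB2 h t hX]
    congr 1
    simp only [sB, tB, gen, sg, ta, map_mul, FreeGroup.lift_apply_of, rB1, rB2, rB3, rB4, rB5,
      mul_assoc]

/-- Reversing the generators exchanges facets and vertex-figures. -/
theorem facB_rev (r : Fin 6 → G) (s k : ℕ) :
    FreeGroup.lift (fun i => r (Fin.rev i)) (facetB s k) = FreeGroup.lift r (vertB s k) := by
  unfold facetB vertB
  split_ifs with hk
  · simp only [sB, tB, gen, map_pow, map_mul, FreeGroup.lift_apply_of]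
    rfl
  · simp only [sB, tB, gen, map_pow, map_mul, FreeGroup.lift_apply_of]
    rfl

theorem verB_rev (r : Fin 6 → G) (s k : ℕ) :
    FreeGroup.lift (fun i => r (Fin.rev i)) (vertB s k) = FreeGroup.lift r (facetB s k) := by
  unfold facetB vertB
  split_ifs with hk
  · simp only [sB, tB, gen, map_pow, map_mul, FreeGroup.lift_apply_of]
    rfl
  · simp only [sB, tB, gen, map_pow, map_mul, FreeGroup.lift_apply_of]
    rfl

end B

/-- The subgroup argument for family (B). -/
theorem infB {n k' : ℕ} (hinf : Infinite (Gam n k')) {s k t l : ℕ} (r : Fin 6 → Gam n k')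
    (hr : ∀ i : Fin 6, ∃ j : Fin 6, r j = rB (rho n k' 0) (rho n k' 1) (rho n k' 2) (rho n k' 3)
      (rho n k' 4) (rho n k' 5) i)
    (h : ∀ x ∈ relsB s k t l, FreeGroup.lift r x = 1) : Infinite (GamB s k t l) := by
  by_contra hcon
  rw [not_infinite_iff_finite] at hcon
  have hH : Finite (PresentedGroup.toGroup h).range :=
    Finite.of_surjective _ (PresentedGroup.toGroup h).rangeRestrict_surjective
  have hm : ∀ i : Fin 6, rB (rho n k' 0) (rho n k' 1) (rho n k' 2) (rho n k' 3)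
      (rho n k' 4) (rho n k' 5) i ∈ (PresentedGroup.toGroup h).range := by
    intro i
    obtain ⟨j, hj⟩ := hr i
    exact ⟨PresentedGroup.of j, by rw [PresentedGroup.toGroup.of, hj]⟩
  have hb : rho n k' 1 ∈ (PresentedGroup.toGroup h).range := hm 0
  have hc : rho n k' 2 ∈ (PresentedGroup.toGroup h).range := hm 1
  have hd : rho n k' 3 ∈ (PresentedGroup.toGroup h).range := hm 2
  have he : rho n k' 4 ∈ (PresentedGroup.toGroup h).range := hm 3
  have hf : rho n k' 5 ∈ (PresentedGroup.toGroup h).range := hm 4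
  have hs : sg (rho n k' 2) (rho n k' 3) (rho n k' 4) ∈ (PresentedGroup.toGroup h).range :=
    mul_mem (mul_mem hc (mul_mem (mul_mem hd he) hd)) hc
  exact absurd_of_fin hinf _ hH hc hd he hf (mul_mem (mul_mem hb hs) hb) (hm 5)

theorem infB1 {n k' : ℕ} (hinf : Infinite (Gam n k')) {s k t l : ℕ}
    (hT : k = 1 → (tT (rho n k' 1) (sg (rho n k' 2) (rho n k' 3) (rho n k' 4))
      (ta (rho n k' 3) (rho n k' 4) (rho n k' 5))) ^ s = 1)
    (hXs : ((rho n k' 1 * sg (rho n k' 2) (rho n k' 3) (rho n k' 4) *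
      ta (rho n k' 3) (rho n k' 4) (rho n k' 5)) * (rho n k' 1 *
      sg (rho n k' 2) (rho n k' 3) (rho n k' 4) * ta (rho n k' 3) (rho n k' 4) (rho n k' 5))) ^ s = 1)
    (hXt : ((rho n k' 1 * sg (rho n k' 2) (rho n k' 3) (rho n k' 4) *
      ta (rho n k' 3) (rho n k' 4) (rho n k' 5)) * (rho n k' 1 *
      sg (rho n k' 2) (rho n k' 3) (rho n k' 4) * ta (rho n k' 3) (rho n k' 4) (rho n k' 5))) ^ t = 1) :
    Infinite (GamB s k t l) ∧ Infinite (GamB t l s k) := by
  constructor
  · refine infB hinf (rB (rho n k' 0) (rho n k' 1) (rho n k' 2) (rho n k' 3)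
      (rho n k' 4) (rho n k' 5)) (fun i => ⟨i, rfl⟩) ?_
    rintro x (⟨i, j, rfl⟩ | hx | hx)
    · rw [map_pow, map_mul, gen, gen, FreeGroup.lift_apply_of, FreeGroup.lift_apply_of]
      exact rB_cox (rel n k') i j
    · rw [hx]
      exact facB s k hT hXs
    · rw [Set.mem_singleton_iff.1 hx]
      exact verB (rel n k') t l hXt
  · refine infB hinf (fun i => rB (rho n k' 0) (rho n k' 1) (rho n k' 2) (rho n k' 3)
      (rho n k' 4) (rho n k' 5) (Fin.rev i)) (fun i => ⟨Fin.rev i, by rw [Fin.rev_rev]⟩) ?_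
    rintro x (⟨i, j, rfl⟩ | hx | hx)
    · rw [map_pow, map_mul, gen, gen, FreeGroup.lift_apply_of, FreeGroup.lift_apply_of, coxB_rev]
      exact rB_cox (rel n k') _ _
    · rw [hx, facB_rev]
      exact verB (rel n k') t l hXt
    · rw [Set.mem_singleton_iff.1 hx, verB_rev]
      exact facB s k hT hXs

/-! ### Family (C) -/

section C

variable {G : Type} [Group G]

/-- The images of the generators in family (C). -/
def rC (a b c d e f : G) : Fin 6 → G := ![c, d, e, f, b * sg c d e * b, a]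

theorem rC0 (a b c d e f : G) : rC a b c d e f 0 = c := rfl

theorem rC1 (a b c d e f : G) : rC a b c d e f 1 = d := rfl

theorem rC2 (a b c d e f : G) : rC a b c d e f 2 = e := rfl

theorem rC3 (a b c d e f : G) : rC a b c d e f 3 = f := rfl

theorem rC4 (a b c d e f : G) : rC a b c d e f 4 = b * sg c d e * b := rfl

theorem rC5 (a b c d e f : G) : rC a b c d e f 5 = a := rfl

theorem coxC_symm (i j : Fin 6) : coxC i j = coxC j i := by
  revert i j
  decide

theorem rC_cox {a b c d e f : G} (h : Rel a b c d e f) (i j : Fin 6) :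
    (rC a b c d e f i * rC a b c d e f j) ^ coxC i j = 1 := by
  refine coxall coxC_symm ?_ i j
  intro i j hij
  fin_cases i <;> fin_cases j
  · exact p1 h.cc
  · exact p3 h.cc h.dd h.cdc
  · exact p2 h.cc h.ee h.ce
  · exact p2 h.cc h.ff h.cf
  · exact p2 h.cc (LL h) (cL h)
  · exact p2 h.cc h.aa h.ac.symm
  · exact absurd hij (by decide)
  · exact p1 h.dd
  · exact p4 h.dd h.ee h.dede
  · exact p2 h.dd h.ff h.df
  · exact p2 h.dd (LL h) (dL h)
  · exact p2 h.dd h.aa h.ad.symm
  · exact absurd hij (by decide)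
  · exact absurd hij (by decide)
  · exact p1 h.ee
  · exact p3 h.ee h.ff h.efe
  · exact p2 h.ee (LL h) (eL h)
  · exact p2 h.ee h.aa h.ae.symm
  · exact absurd hij (by decide)
  · exact absurd hij (by decide)
  · exact absurd hij (by decide)
  · exact p1 h.ff
  · exact p3 h.ff (LL h) (fL h)
  · exact p2 h.ff h.aa h.af.symm
  · exact absurd hij (by decide)
  · exact absurd hij (by decide)
  · exact absurd hij (by decide)
  · exact absurd hij (by decide)
  · exact p1 (LL h)
  · exact p4 (LL h) h.aa (La h)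
  · exact absurd hij (by decide)
  · exact absurd hij (by decide)
  · exact absurd hij (by decide)
  · exact absurd hij (by decide)
  · exact absurd hij (by decide)
  · exact p1 h.aa

theorem facC {a b c d e f : G} (h : Rel a b c d e f) (t k : ℕ)
    (hX : ((b * sg c d e * ta d e f) * (b * sg c d e * ta d e f)) ^ t = 1) :
    FreeGroup.lift (rC a b c d e f) (facetC t k) = 1 := by
  unfold facetC
  split_ifs with hk
  · rw [map_pow, ← hX, X_eq h]
    congr 1
    simp only [sC, tC, gen, sg, ta, map_mul, FreeGroup.lift_apply_of, rC0, rC1, rC2, rC3, rC4,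
      mul_assoc]
  · rw [map_pow, ← Y_pow h t hX]
    congr 1
    simp only [sC, tC, gen, sg, ta, map_mul, FreeGroup.lift_apply_of, rC0, rC1, rC2, rC3, rC4,
      mul_assoc]

theorem verC {a b c d e f : G} (h : Rel a b c d e f) (u l : ℕ)
    (hT : l = 1 → (tT b (sg c d e) (ta d e f)) ^ u = 1)
    (hX : ((b * sg c d e * ta d e f) * (b * sg c d e * ta d e f)) ^ u = 1) :
    FreeGroup.lift (rC a b c d e f) (vertC u l) = 1 := by
  unfold vertC
  split_ifs with hl hl2
  · rw [map_pow, ← vC1 h u (hT hl)]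
    congr 1
    simp only [gen, map_mul, FreeGroup.lift_apply_of, rC1, rC2, rC3, rC4, rC5, sg, mul_assoc]
  · rw [map_pow, ← vC2 h u hX]
    congr 1
    simp only [gen, map_mul, FreeGroup.lift_apply_of, rC1, rC2, rC3, rC4, rC5, sg, mul_assoc]
  · rw [map_pow, ← vC4 h u hX]
    congr 1
    simp only [gen, map_mul, FreeGroup.lift_apply_of, rC1, rC2, rC3, rC4, rC5, sg, mul_assoc]

end C

theorem infC {n k' : ℕ} (hinf : Infinite (Gam n k')) {t k u l : ℕ}
    (hT : l = 1 → (tT (rho n k' 1) (sg (rho n k' 2) (rho n k' 3) (rho n k' 4))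
      (ta (rho n k' 3) (rho n k' 4) (rho n k' 5))) ^ u = 1)
    (hXt : ((rho n k' 1 * sg (rho n k' 2) (rho n k' 3) (rho n k' 4) *
      ta (rho n k' 3) (rho n k' 4) (rho n k' 5)) * (rho n k' 1 *
      sg (rho n k' 2) (rho n k' 3) (rho n k' 4) * ta (rho n k' 3) (rho n k' 4) (rho n k' 5))) ^ t = 1)
    (hXu : ((rho n k' 1 * sg (rho n k' 2) (rho n k' 3) (rho n k' 4) *
      ta (rho n k' 3) (rho n k' 4) (rho n k' 5)) * (rho n k' 1 *
      sg (rho n k' 2) (rho n k' 3) (rho n k' 4) * ta (rho n k' 3) (rho n k' 4) (rho n k' 5))) ^ u = 1) :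
    Infinite (GamC t k u l) := by
  have h : ∀ x ∈ relsC t k u l, FreeGroup.lift (rC (rho n k' 0) (rho n k' 1) (rho n k' 2)
      (rho n k' 3) (rho n k' 4) (rho n k' 5)) x = 1 := by
    rintro x (⟨i, j, rfl⟩ | hx | hx)
    · rw [map_pow, map_mul, gen, gen, FreeGroup.lift_apply_of, FreeGroup.lift_apply_of]
      exact rC_cox (rel n k') i j
    · rw [hx]
      exact facC (rel n k') t k hXt
    · rw [Set.mem_singleton_iff.1 hx]
      exact verC (rel n k') u l hT hXu
  by_contra hcon
  rw [not_infinite_iff_finite] at hcon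
  have hH : Finite (PresentedGroup.toGroup h).range :=
    Finite.of_surjective _ (PresentedGroup.toGroup h).rangeRestrict_surjective
  have hm : ∀ i : Fin 6, rC (rho n k' 0) (rho n k' 1) (rho n k' 2) (rho n k' 3)
      (rho n k' 4) (rho n k' 5) i ∈ (PresentedGroup.toGroup h).range :=
    fun i => ⟨PresentedGroup.of i, by rw [PresentedGroup.toGroup.of]⟩
  have ha : rho n k' 0 ∈ (PresentedGroup.toGroup h).range := hm 5
  have hl : rho n k' 1 * sg (rho n k' 2) (rho n k' 3) (rho n k' 4) * rho n k' 1 ∈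
      (PresentedGroup.toGroup h).range := hm 4
  exact absurd_of_fin hinf _ hH (hm 0) (hm 1) (hm 2) (hm 3) hl (mul_mem (mul_mem ha hl) ha)

/-- Powers. -/
theorem pow_dvd {G : Type} [Group G] {x : G} {n m : ℕ} (hx : x ^ n = 1) (h : n ∣ m) : x ^ m = 1 := by
  obtain ⟨q, rfl⟩ := h
  rw [pow_mul, hx, one_pow]

/-- Families (B) and (C): the groups are infinite if the greatest common divisor of the two parameters is at
least five, and also if it is four and one of the vectors is `(s,s,0,0)` (family (B)), resp. the vertex-figure vector is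
not `(u,0,0,0)` (family (C)). -/
theorem result :
    (∀ s k t l : ℕ, (k = 1 ∨ k = 2) → (l = 1 ∨ l = 2) →
      (5 ≤ Nat.gcd s t ∨ (4 ≤ Nat.gcd s t ∧ (k = 2 ∨ l = 2))) → Infinite (GamB s k t l)) ∧
    (∀ t k u l : ℕ, (k = 1 ∨ k = 2) → (l = 1 ∨ l = 2 ∨ l = 4) →
      (5 ≤ Nat.gcd t u ∨ (4 ≤ Nat.gcd t u ∧ l ≠ 1)) → Infinite (GamC t k u l)) := by
  refine ⟨fun s k t l hk hl hg => ?_, fun t k u l hk hl hg => ?_⟩
  · have d1 : Nat.gcd s t ∣ s := Nat.gcd_dvd_left s t
    have d2 : Nat.gcd s t ∣ t := Nat.gcd_dvd_right s t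
    rcases hg with hg | ⟨hg, hk2 | hl2⟩
    · have e1 := T_one (Nat.gcd s t)
      have e2 := X_pow (rel (Nat.gcd s t) 1) _ e1
      exact (infB1 (infinite_one _ hg) (fun _ => pow_dvd e1 d1) (pow_dvd e2 d1)
        (pow_dvd e2 d2)).1
    · have e2 := X_one (Nat.gcd s t)
      exact (infB1 (infinite_two _ hg) (fun h1 => absurd h1 (by omega)) (pow_dvd e2 d1)
        (pow_dvd e2 d2)).1
    · have e2 := X_one (Nat.gcd s t)
      exact (infB1 (infinite_two _ hg) (fun h1 => absurd h1 (by omega)) (pow_dvd e2 d2)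
        (pow_dvd e2 d1)).2
  · have d1 : Nat.gcd t u ∣ t := Nat.gcd_dvd_left t u
    have d2 : Nat.gcd t u ∣ u := Nat.gcd_dvd_right t u
    rcases hg with hg | ⟨hg, hl1⟩
    · have e1 := T_one (Nat.gcd t u)
      have e2 := X_pow (rel (Nat.gcd t u) 1) _ e1
      exact infC (infinite_one _ hg) (fun _ => pow_dvd e1 d2) (pow_dvd e2 d1) (pow_dvd e2 d2)
    · have e2 := X_one (Nat.gcd t u)
      exact infC (infinite_two _ hg) (fun h1 => absurd h1 hl1) (pow_dvd e2 d1) (pow_dvd e2 d2)

end Pool.Agent.Results.MP_c2d01e_co.GcdBC
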