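import Pool.Agent.Lib.MP_c2d01e_co.LabGroup

/-!
# Families (B) and (C) of locally toroidal regular 6-polytopes: infinite groups

`GamB s k t l` is the group of the universal polytope
`{{3,3,4,3}_(s^k,0^(4-k)), {3,4,3,3}_(t^l,0^(4-l))}`, `GamC t k u l` the group of the universal
polytope `{{3,4,3,3}_(t^k,0^(4-k)), {4,3,3,4}_(u^l,0^(4-l))}`: generators `ρ₀, …, ρ₅`, the Coxeter
relations of type `{3,3,4,3,3}` or `{3,4,3,3,4}`, and one relation for the facets and one for the
vertex-figures.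

Outline of the proof.  The Coxeter group `V` of the star with centre `c` and leaves `a₀, …, a₄` is a
normal subgroup of `[3,3,4,3,3]` and of `[3,4,3,3,4]`, with complements `S₄` and `S₃ × S₂` permuting
the leaves.  The conjugates of `c` by the elementary abelian group `⟨a₀, …, a₄⟩` are indexed by the
subsets `S` of `{0, …, 4}`.  A subgroup of index 48 of `V` maps onto the Coxeter group with
generators `r_S`, `S ⊆ {0, …, 4}` even, in which `r_S` and `r_S'` commute if `|S Δ S'| = 2`, and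
`(r_S r_S')^{m_i} = 1` if `S Δ S'` is the complement of `{i}`; the translations at the cusp `i`
(the affine group generated by `c` and `a_j`, `j ≠ i`) act as products of commuting pairs
`r_S r_S'` of this second kind.  The corresponding representation (induced from a reflection
representation, of dimension 96) satisfies all relations if the `m_i` are chosen suitably, and if
two different `m_i` are at least 3 the Coxeter group contains a cycle of length four with labels at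
least 3, so it is infinite.
-/

set_option autoImplicit false

namespace Pool.Agent.Results.MP_c2d01e_co.InfiniteBC

/-- The generator `ρᵢ` of the free group. -/
def gen (i : Fin 6) : FreeGroup (Fin 6) := FreeGroup.of i

/-- The Coxeter matrix of the string diagram `{3,3,4,3,3}` on the nodes `0, …, 5`. -/
def coxB (i j : Fin 6) : ℕ :=
  if i = j then 1
  else if (i = 2 ∧ j = 3) ∨ (i = 3 ∧ j = 2) then 4
  else if (i : ℕ) + 1 = j ∨ (j : ℕ) + 1 = i then 3
  else 2

/-- `ρ₁ρ₂ρ₃ρ₂ρ₁`. -/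
def sB : FreeGroup (Fin 6) := gen 1 * gen 2 * gen 3 * gen 2 * gen 1

/-- `ρ₄ρ₃ρ₂ρ₃ρ₄`. -/
def tB : FreeGroup (Fin 6) := gen 4 * gen 3 * gen 2 * gen 3 * gen 4

/-- The relator of the facets `{3,3,4,3}_(s^k,0^(4-k))`. -/
def facetB (s k : ℕ) : FreeGroup (Fin 6) :=
  if k = 1 then (gen 0 * sB * tB * sB) ^ s else (gen 0 * sB * tB) ^ (2 * s)

/-- The relator of the vertex-figures `{3,4,3,3}_(t^l,0^(4-l))`. -/
def vertB (t l : ℕ) : FreeGroup (Fin 6) :=
  if l = 1 then (gen 5 * tB * sB * tB) ^ t else (gen 5 * tB * sB) ^ (2 * t)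

/-- The relators of family (B). -/
def relsB (s k t l : ℕ) : Set (FreeGroup (Fin 6)) :=
  {r | ∃ i j, r = (gen i * gen j) ^ coxB i j} ∪ {facetB s k, vertB t l}

/-- The group of family (B) with parameter vectors `(s^k,0^(4-k))` and `(t^l,0^(4-l))`. -/
abbrev GamB (s k t l : ℕ) : Type := PresentedGroup (relsB s k t l)

/-- The Coxeter matrix of the string diagram `{3,4,3,3,4}` on the nodes `0, …, 5`. -/
def coxC (i j : Fin 6) : ℕ :=
  if i = j then 1
  else if (i = 1 ∧ j = 2) ∨ (i = 2 ∧ j = 1) ∨ (i = 4 ∧ j = 5) ∨ (i = 5 ∧ j = 4) then 4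
  else if (i : ℕ) + 1 = j ∨ (j : ℕ) + 1 = i then 3
  else 2

/-- `ρ₃ρ₂ρ₁ρ₂ρ₃`. -/
def sC : FreeGroup (Fin 6) := gen 3 * gen 2 * gen 1 * gen 2 * gen 3

/-- `ρ₀ρ₁ρ₂ρ₁ρ₀`. -/
def tC : FreeGroup (Fin 6) := gen 0 * gen 1 * gen 2 * gen 1 * gen 0

/-- The relator of the facets `{3,4,3,3}_(t^k,0^(4-k))`. -/
def facetC (t k : ℕ) : FreeGroup (Fin 6) :=
  if k = 1 then (gen 4 * sC * tC * sC) ^ t else (gen 4 * sC * tC) ^ (2 * t)

/-- The relator of the vertex-figures `{4,3,3,4}_(u^l,0^(4-l))`. -/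
def vertC (u l : ℕ) : FreeGroup (Fin 6) :=
  if l = 1 then (gen 1 * gen 2 * gen 3 * gen 4 * gen 5 * gen 4 * gen 3 * gen 2) ^ u
  else if l = 2 then (gen 1 * gen 2 * gen 3 * gen 4 * gen 5 * gen 4 * gen 3) ^ (2 * u)
  else (gen 1 * gen 2 * gen 3 * gen 4 * gen 5) ^ (4 * u)

/-- The relators of family (C). -/
def relsC (t k u l : ℕ) : Set (FreeGroup (Fin 6)) :=
  {r | ∃ i j, r = (gen i * gen j) ^ coxC i j} ∪ {facetC t k, vertC u l}

/-- The group of family (C) with parameter vectors `(t^k,0^(4-k))` and `(u^l,0^(4-l))`. -/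
abbrev GamC (t k u l : ℕ) : Type := PresentedGroup (relsC t k u l)

open Pool.Agent.Lib.MP_c2d01e_co.Lab

/-- The labels: class `0` has label `m₀`, class `1` has label `m₁`. -/
noncomputable def kk (m0 m1 : ℕ) (c : ℕ) : ℝ :=
  if c = 0 then 2 * Real.cos (Real.pi / m0) else 2 * Real.cos (Real.pi / m1)

theorem kk_zero (m0 m1 : ℕ) : kk m0 m1 0 = 2 * Real.cos (Real.pi / m0) := by
  simp [kk]

theorem kk_one (m0 m1 : ℕ) : kk m0 m1 1 = 2 * Real.cos (Real.pi / m1) := by
  simp [kk]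

theorem one_le_cos {m : ℕ} (hm : 3 ≤ m) : 1 ≤ 2 * Real.cos (Real.pi / m) := by
  have h3 : (3 : ℝ) ≤ m := by exact_mod_cast hm
  have h1 : Real.pi / m ≤ Real.pi / 3 :=
    div_le_div_of_nonneg_left Real.pi_pos.le (by norm_num) h3
  have h2 : Real.cos (Real.pi / 3) ≤ Real.cos (Real.pi / m) :=
    Real.cos_le_cos_of_nonneg_of_le_pi (by positivity) (by linarith [Real.pi_pos]) h1
  rw [Real.cos_pi_div_three] at h2
  linarith

theorem coxB_eq (i j : Fin 6) : coxB i j = coxL [2] i j := by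
  revert i j
  decide +kernel

theorem coxC_eq (i j : Fin 6) : coxC i j = coxL [1, 4] i j := by
  revert i j
  decide +kernel

/-- The Coxeter relators act trivially. -/
theorem cox_triv {D : Dat} (k : ℕ → ℝ) (h : Ok D 6) (L : List ℕ)
    (hT : ((List.range 6).all fun i => (List.range 6).all fun j =>
      trivB D (rep (coxL L i j) [i, j])) = true) (i j : Fin 6) (v : ℕ → ℝ) :
    (fun v => [(i : ℕ), (j : ℕ)].foldr (G D k) v)^[coxL L i j] v = v := by
  simp only [List.all_eq_true, List.mem_range] at hT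
  have := triv_sound k h _ (fun x hx => ?_) (hT i i.isLt j j.isLt) v
  · rw [foldr_rep] at this
    exact this
  · have := mem_rep hx
    simp only [List.mem_cons, List.not_mem_nil, or_false] at this
    rcases this with rfl | rfl
    · exact i.isLt
    · exact j.isLt

/-- The facet relation of family (B). -/
theorem facB (k : ℕ → ℝ) (s e m : ℕ) (hm : 2 ≤ m) (hk : k 1 = 2 * Real.cos (Real.pi / m))
    (hs : 2 * m ∣ s) (v : ℕ → ℝ) :
    (if e = 1 then (fun v => [0, 1, 2, 3, 2, 1, 4, 3, 2, 3, 4, 1, 2, 3, 2, 1].foldr (G DB k) v)^[s] v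
      else (fun v => [0, 1, 2, 3, 2, 1, 4, 3, 2, 3, 4].foldr (G DB k) v)^[2 * s] v) = v := by
  split_ifs
  · exact pow_sound' k okB _ (by decide) m hm hk _ 2 powB_s1 s hs v
  · exact pow_sound' k okB _ (by decide) m hm hk _ 4 powB_s2 (2 * s)
      (by obtain ⟨q, rfl⟩ := hs; exact ⟨q, by ring⟩) v

/-- The vertex-figure relation of family (B). -/
theorem verB (k : ℕ → ℝ) (t e m : ℕ) (hm : 2 ≤ m) (hk : k 0 = 2 * Real.cos (Real.pi / m))
    (ht : 2 * m ∣ t ∨ e ≠ 1 ∧ m ∣ t) (v : ℕ → ℝ) :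
    (if e = 1 then (fun v => [5, 4, 3, 2, 3, 4, 1, 2, 3, 2, 1, 4, 3, 2, 3, 4].foldr (G DB k) v)^[t] v
      else (fun v => [5, 4, 3, 2, 3, 4, 1, 2, 3, 2, 1].foldr (G DB k) v)^[2 * t] v) = v := by
  split_ifs with he
  · exact pow_sound' k okB _ (by decide) m hm hk _ 2 powB_t1 t (by tauto) v
  · refine pow_sound' k okB _ (by decide) m hm hk _ 2 powB_t2 (2 * t) ?_ v
    rcases ht with ⟨q, rfl⟩ | ⟨-, ⟨q, rfl⟩⟩
    · exact ⟨2 * q, by ring⟩
    · exact ⟨q, by ring⟩

/-- Family (B), first form. -/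
theorem infinite_B (s k t l m0 m1 : ℕ) (h0 : 3 ≤ m0) (h1 : 2 ≤ m1) (hs : 2 * m1 ∣ s)
    (ht : 2 * m0 ∣ t ∨ l ≠ 1 ∧ m0 ∣ t) : Infinite (GamB s k t l) := by
  refine infinite_of_rep (kk m0 m1) okB invDB id _ ?_ wB 0 _ cycB_B
    (by rw [kk_zero]; exact one_le_cos h0)
  rintro r (⟨i, j, rfl⟩ | hr)
  · refine ⟨[i, j], coxB i j, by simp [w2g, gen], fun v => ?_⟩
    rw [coxB_eq]
    exact cox_triv (kk m0 m1) okB [2] coxB_triv i j v
  · rcases hr with rfl | hr
    · have key := facB (kk m0 m1) s k m1 h1 (kk_one _ _) hs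
      unfold facetB
      split_ifs with hk
      · refine ⟨[0, 1, 2, 3, 2, 1, 4, 3, 2, 3, 4, 1, 2, 3, 2, 1], s, ?_, fun v => ?_⟩
        · simp only [w2g, gen, sB, tB, List.map_cons, List.map_nil, List.prod_cons, List.prod_nil,
            mul_one, mul_assoc]
        · have := key v
          rw [if_pos hk] at this
          exact this
      · refine ⟨[0, 1, 2, 3, 2, 1, 4, 3, 2, 3, 4], 2 * s, ?_, fun v => ?_⟩
        · simp only [w2g, gen, sB, tB, List.map_cons, List.map_nil, List.prod_cons, List.prod_nil,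
            mul_one, mul_assoc]
        · have := key v
          rw [if_neg hk] at this
          exact this
    · rw [Set.mem_singleton_iff.1 hr]
      have key := verB (kk m0 m1) t l m0 (by omega) (kk_zero _ _) ht
      unfold vertB
      split_ifs with hk
      · refine ⟨[5, 4, 3, 2, 3, 4, 1, 2, 3, 2, 1, 4, 3, 2, 3, 4], t, ?_, fun v => ?_⟩
        · simp only [w2g, gen, sB, tB, List.map_cons, List.map_nil, List.prod_cons, List.prod_nil,
            mul_one, mul_assoc]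
        · have := key v
          rw [if_pos hk] at this
          exact this
      · refine ⟨[5, 4, 3, 2, 3, 4, 1, 2, 3, 2, 1], 2 * t, ?_, fun v => ?_⟩
        · simp only [w2g, gen, sB, tB, List.map_cons, List.map_nil, List.prod_cons, List.prod_nil,
            mul_one, mul_assoc]
        · have := key v
          rw [if_neg hk] at this
          exact this

theorem coxB_rev (i j : Fin 6) : coxB i j = coxL [2] (Fin.rev i) (Fin.rev j) := by
  revert i j
  decide +kernel

theorem cycB_rev : cycB DB 0 (32, 62, 35, 61) ((wB.map Fin.rev).map fun i => ((Fin.rev i : Fin 6) : ℕ))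
    = true := by
  decide +kernel

/-- Family (B), second form. -/
theorem infinite_B' (s k t l m0 m1 : ℕ) (h0 : 3 ≤ m0) (h1 : 2 ≤ m1) (hs : 2 * m1 ∣ s)
    (ht : 2 * m0 ∣ t ∨ l ≠ 1 ∧ m0 ∣ t) : Infinite (GamB t l s k) := by
  refine infinite_of_rep (kk m0 m1) okB invDB Fin.rev _ ?_ (wB.map Fin.rev) 0 _ cycB_rev
    (by rw [kk_zero]; exact one_le_cos h0)
  rintro r (⟨i, j, rfl⟩ | hr)
  · refine ⟨[i, j], coxB i j, by simp [w2g, gen], fun v => ?_⟩
    rw [coxB_rev]
    exact cox_triv (kk m0 m1) okB [2] coxB_triv (Fin.rev i) (Fin.rev j) v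
  · rcases hr with rfl | hr
    · have key := verB (kk m0 m1) t l m0 (by omega) (kk_zero _ _) ht
      unfold facetB
      split_ifs with hk
      · refine ⟨[0, 1, 2, 3, 2, 1, 4, 3, 2, 3, 4, 1, 2, 3, 2, 1], t, ?_, fun v => ?_⟩
        · simp only [w2g, gen, sB, tB, List.map_cons, List.map_nil, List.prod_cons, List.prod_nil,
            mul_one, mul_assoc]
        · have := key v
          rw [if_pos hk] at this
          exact this
      · refine ⟨[0, 1, 2, 3, 2, 1, 4, 3, 2, 3, 4], 2 * t, ?_, fun v => ?_⟩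
        · simp only [w2g, gen, sB, tB, List.map_cons, List.map_nil, List.prod_cons, List.prod_nil,
            mul_one, mul_assoc]
        · have := key v
          rw [if_neg hk] at this
          exact this
    · rw [Set.mem_singleton_iff.1 hr]
      have key := facB (kk m0 m1) s k m1 h1 (kk_one _ _) hs
      unfold vertB
      split_ifs with hk
      · refine ⟨[5, 4, 3, 2, 3, 4, 1, 2, 3, 2, 1, 4, 3, 2, 3, 4], s, ?_, fun v => ?_⟩
        · simp only [w2g, gen, sB, tB, List.map_cons, List.map_nil, List.prod_cons, List.prod_nil,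
            mul_one, mul_assoc]
        · have := key v
          rw [if_pos hk] at this
          exact this
      · refine ⟨[5, 4, 3, 2, 3, 4, 1, 2, 3, 2, 1], 2 * s, ?_, fun v => ?_⟩
        · simp only [w2g, gen, sB, tB, List.map_cons, List.map_nil, List.prod_cons, List.prod_nil,
            mul_one, mul_assoc]
        · have := key v
          rw [if_neg hk] at this
          exact this

/-- Family (C). -/
theorem infinite_C (t k u l m0 m1 : ℕ) (h0 : 2 ≤ m0) (h1 : 2 ≤ m1) (h01 : 3 ≤ m0 ∨ 3 ≤ m1)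
    (ht : 2 * m0 ∣ t ∨ k ≠ 1 ∧ m0 ∣ t) (hu : 2 * m1 ∣ u ∨ l ≠ 1 ∧ l ≠ 2 ∧ m1 ∣ u) :
    Infinite (GamC t k u l) := by
  have hrel : ∀ r ∈ relsC t k u l, ∃ (w : List (Fin 6)) (N : ℕ), r = w2g w ^ N ∧
      ∀ v, (fun v => (w.map fun i => ((id i : Fin 6) : ℕ)).foldr (G DC (kk m0 m1)) v)^[N] v = v := by
    rintro r (⟨i, j, rfl⟩ | hr)
    · refine ⟨[i, j], coxC i j, by simp [w2g, gen], fun v => ?_⟩
      rw [coxC_eq]
      exact cox_triv (kk m0 m1) okC [1, 4] coxC_triv i j v
    · rcases hr with rfl | hr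
      · unfold facetC
        split_ifs with hk
        · refine ⟨[4, 3, 2, 1, 2, 3, 0, 1, 2, 1, 0, 3, 2, 1, 2, 3], t, ?_, fun v => ?_⟩
          · simp only [w2g, gen, sC, tC, List.map_cons, List.map_nil, List.prod_cons,
              List.prod_nil, mul_one, mul_assoc]
          · exact pow_sound' (kk m0 m1) okC _ (by decide) m0 h0 (kk_zero _ _) _ 2 powC_t1 t
              (by tauto) v
        · refine ⟨[4, 3, 2, 1, 2, 3, 0, 1, 2, 1, 0], 2 * t, ?_, fun v => ?_⟩
          · simp only [w2g, gen, sC, tC, List.map_cons, List.map_nil, List.prod_cons,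
              List.prod_nil, mul_one, mul_assoc]
          · refine pow_sound' (kk m0 m1) okC _ (by decide) m0 h0 (kk_zero _ _) _ 2 powC_t2 (2 * t)
              ?_ v
            rcases ht with ⟨q, rfl⟩ | ⟨-, ⟨q, rfl⟩⟩
            · exact ⟨2 * q, by ring⟩
            · exact ⟨q, by ring⟩
      · rw [Set.mem_singleton_iff.1 hr]
        unfold vertC
        split_ifs with hl1 hl2
        · refine ⟨[1, 2, 3, 4, 5, 4, 3, 2], u, ?_, fun v => ?_⟩
          · simp only [w2g, gen, List.map_cons, List.map_nil, List.prod_cons,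
              List.prod_nil, mul_one, mul_assoc]
          · exact pow_sound' (kk m0 m1) okC _ (by decide) m1 h1 (kk_one _ _) _ 2 powC_u1 u
              (by tauto) v
        · refine ⟨[1, 2, 3, 4, 5, 4, 3], 2 * u, ?_, fun v => ?_⟩
          · simp only [w2g, gen, List.map_cons, List.map_nil, List.prod_cons,
              List.prod_nil, mul_one, mul_assoc]
          · refine pow_sound' (kk m0 m1) okC _ (by decide) m1 h1 (kk_one _ _) _ 4 powC_u2 (2 * u)
              ?_ v
            rcases hu with ⟨q, rfl⟩ | h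
            · exact ⟨q, by ring⟩
            · exact absurd hl2 h.2.1
        · refine ⟨[1, 2, 3, 4, 5], 4 * u, ?_, fun v => ?_⟩
          · simp only [w2g, gen, List.map_cons, List.map_nil, List.prod_cons,
              List.prod_nil, mul_one, mul_assoc]
          · refine pow_sound' (kk m0 m1) okC _ (by decide) m1 h1 (kk_one _ _) _ 4 powC_u4 (4 * u)
              ?_ v
            rcases hu with ⟨q, rfl⟩ | ⟨-, -, ⟨q, rfl⟩⟩
            · exact ⟨2 * q, by ring⟩
            · exact ⟨q, by ring⟩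
  rcases h01 with h | h
  · exact infinite_of_rep (kk m0 m1) okC invDC id _ hrel wC0 0 _ cycB_C0
      (by rw [kk_zero]; exact one_le_cos h)
  · exact infinite_of_rep (kk m0 m1) okC invDC id _ hrel wC1 1 _ cycB_C1
      (by rw [kk_one]; exact one_le_cos h)

/-- Family (B): if `s ≥ 4` is even and the other vector is `(t,0,0,0)` with `t ≥ 6` even or
`(t,t,0,0)` with `t ≥ 3`, then the groups with the vectors `(s^k,0^(4-k))` (any `k`), `(t^l,0^(4-l))`
in either order are infinite.  Family (C): let the facets have the vector `(t,0,0,0)` with `t ≥ 4`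
even or `(t,t,0,0)` with `t ≥ 2`, and the vertex-figures the vector `(u,0,0,0)` or `(u,u,0,0)` with
`u ≥ 4` even or `(u,u,u,u)` with `u ≥ 2`; the group is infinite unless both are minimal. -/
theorem result :
    (∀ s k t l : ℕ, Even s → 4 ≤ s → ((l = 1 ∧ Even t ∧ 6 ≤ t) ∨ (l = 2 ∧ 3 ≤ t)) →
      Infinite (GamB s k t l) ∧ Infinite (GamB t l s k)) ∧
    (∀ t k u l : ℕ, ((k = 1 ∧ Even t ∧ 4 ≤ t) ∨ (k = 2 ∧ 2 ≤ t)) →
      (((l = 1 ∨ l = 2) ∧ Even u ∧ 4 ≤ u) ∨ (l = 4 ∧ 2 ≤ u)) →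
      ¬ (((k = 1 ∧ t = 4) ∨ (k = 2 ∧ t = 2)) ∧ (((l = 1 ∨ l = 2) ∧ u = 4) ∨ (l = 4 ∧ u = 2))) →
      Infinite (GamC t k u l)) := by
  constructor
  · rintro s k t l ⟨a, rfl⟩ hs ht
    have hd : 2 * a ∣ a + a := ⟨1, by ring⟩
    rcases ht with ⟨rfl, ⟨b, rfl⟩, hb⟩ | ⟨rfl, ht⟩
    · have ht : 2 * b ∣ b + b := ⟨1, by ring⟩
      exact ⟨infinite_B _ k _ 1 b a (by omega) (by omega) hd (Or.inl ht),
        infinite_B' _ k _ 1 b a (by omega) (by omega) hd (Or.inl ht)⟩
    · exact ⟨infinite_B _ k _ 2 t a ht (by omega) hd (Or.inr ⟨by norm_num, dvd_rfl⟩),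
        infinite_B' _ k _ 2 t a ht (by omega) hd (Or.inr ⟨by norm_num, dvd_rfl⟩)⟩
  · rintro t k u l ht hu hn
    have h0 : ∃ m0, 2 ≤ m0 ∧ (2 * m0 ∣ t ∨ k ≠ 1 ∧ m0 ∣ t) ∧
        ((k = 1 ∧ t = 4) ∨ (k = 2 ∧ t = 2) ∨ 3 ≤ m0) := by
      rcases ht with ⟨rfl, ⟨b, rfl⟩, hb⟩ | ⟨rfl, ht⟩
      · exact ⟨b, by omega, Or.inl ⟨1, by ring⟩, by omega⟩
      · exact ⟨t, ht, Or.inr ⟨by norm_num, dvd_rfl⟩, by omega⟩
    have h1 : ∃ m1, 2 ≤ m1 ∧ (2 * m1 ∣ u ∨ l ≠ 1 ∧ l ≠ 2 ∧ m1 ∣ u) ∧
        (((l = 1 ∨ l = 2) ∧ u = 4) ∨ (l = 4 ∧ u = 2) ∨ 3 ≤ m1) := by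
      rcases hu with ⟨hl, ⟨b, rfl⟩, hb⟩ | ⟨rfl, hu⟩
      · exact ⟨b, by omega, Or.inl ⟨1, by ring⟩, by omega⟩
      · exact ⟨u, hu, Or.inr ⟨by norm_num, by norm_num, dvd_rfl⟩, by omega⟩
    obtain ⟨m0, h0, ht', h0'⟩ := h0
    obtain ⟨m1, h1, hu', h1'⟩ := h1
    exact infinite_C t k u l m0 m1 h0 h1 (by omega) ht' hu'

end Pool.Agent.Results.MP_c2d01e_co.InfiniteBC
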